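import Pool.Agent.H73.G.R8.H294ZP.Main

/-!
# The Tate parametrisation over a complete ultrametric field
-/

set_option autoImplicit false
set_option linter.unusedSectionVars false

open UpperHalfPlane H294ZP

namespace Pool.Agent.Y226

/-- the ring of algebraic integers -/
abbrev ZZ : Subalgebra ℤ ℂ := integralClosure ℤ ℂ

/-- the inclusion -/
noncomputable def ιZ : ZZ →+* ℂ := algebraMap ZZ ℂ

theorem ιZ_apply (z : ZZ) : ιZ z = (z : ℂ) := rfl

section ev

variable {K : Type} [NormedField K] [CompleteSpace K] (φ : ZZ →+* K)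

variable {φ} {q : K}

end ev

section rep

variable {C : Type} [NormedField C] [CompleteSpace C]
  (ψ : ZZ →+* C)

variable {ψ} {N : ℕ} {Q : C}

end rep

/-- the coefficients of the expansion of `j`: `q j = 1 + c₁ q + ...` -/
noncomputable def cj (n : ℕ) : ZZ := ⟨ta2.choose n, ta2.choose_spec.2.1 n⟩

theorem cj_zero : cj 0 = 1 := Subtype.ext ta2.choose_spec.1

theorem cj_hasSum (τ : ℍ) : HasSum (fun n => ιZ (cj n) * qq 1 τ ^ n) (qq 1 τ ^ 1 * jj τ) :=
  ta2.choose_spec.2.2 τ

section padic

variable {C : Type} [NormedField C] [IsUltrametricDist C] [CompleteSpace C]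
  {ψ : ZZ →+* C} (hψ : ∀ z, ‖ψ z‖ ≤ 1)

include hψ

end padic

end Pool.Agent.Y226
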